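import Pool.Agent.L7h77.FX.Stm
import Pool.Agent.W125.FV.AI

/-!
# FX-HS: the Hilbert-Schmidt norm of `A` (weight `1 + κ²`)
-/

set_option autoImplicit false

open MeasureTheory

namespace Pool.Agent.L7h70.FX

open Pool.Agent.W716.FV Pool.Agent.W125.FV

theorem s_HS (hKM : KappaMoments) (hGM : GaussMoments) (hPM : PMoments) (hGF : GoodFacts)
    (hXI : XIdent) : Pool.Agent.L7h77.FX.S_HS := by
  intro n R u hR hu η
  obtain ⟨hprob, -, -, hk1, hk2, hk0, -, hvar, -⟩ := hPM n
  obtain ⟨x1, x2, x3, x4, x5⟩ := hXI n R u hR hu η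
  obtain ⟨g1, g2, g3, g4, g5, g6⟩ := hGF n R u hR hu
  have key : ∀ i : Fin n, ‖AA u η (EuclideanSpace.single i 1)‖ ^ 2 ≤
      1 / 6 * ∫ w, (1 + w.2 ^ 2) *
        (inner ℝ (gr u (xi η w) - η) (EuclideanSpace.single i 1) : ℝ) ^ 2 ∂(P n) := by
    intro i
    set v : E n := EuclideanSpace.single i 1 with hv
    set a : E n := AA u η v with ha
    have h1 : ‖a‖ ^ 2 = ∫ w, w.2 ^ 1 * inner ℝ (gr u (xi η w)) v * inner ℝ w.1 a ∂(P n) := by
      rw [← real_inner_self_eq_norm_sq]
      simp only [pow_one]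
      exact AA_inner hPM hGF hR hu η v a
    have h2 : ∫ w, w.2 * ((inner ℝ η v : ℝ) * inner ℝ w.1 a) ∂(P n) = 0 :=
      hk0 (fun x => (inner ℝ η v : ℝ) * inner ℝ x a)
    have hi1 := int_Gg hPM hGF hR hu η v a 1 (by norm_num)
    have hi2 : Integrable (fun w : E n × ℝ => w.2 * ((inner ℝ η v : ℝ) * inner ℝ w.1 a))
        (P n) := by
      refine integ hPM ?_ 1 1 (by norm_num) (|(inner ℝ η v : ℝ)| * ‖a‖) fun w => ?_
      · exact (measurable_snd.mul ((measurable_fst.inner_const).const_mul _)).aestronglyMeasurable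
      · have h3 : |(inner ℝ w.1 a : ℝ)| ≤ ‖w.1‖ * ‖a‖ := abs_real_inner_le_norm _ _
        rw [Real.norm_eq_abs, abs_mul, abs_mul, pow_one, pow_one]
        calc |w.2| * (|(inner ℝ η v : ℝ)| * |(inner ℝ w.1 a : ℝ)|)
            ≤ |w.2| * (|(inner ℝ η v : ℝ)| * (‖w.1‖ * ‖a‖)) := by gcongr
          _ = |(inner ℝ η v : ℝ)| * ‖a‖ * (|w.2| * ‖w.1‖) := by ring
    have h3 : ‖a‖ ^ 2 = ∫ w, w.2 * inner ℝ (gr u (xi η w) - η) v * inner ℝ w.1 a ∂(P n) := by
      rw [h1, ← sub_zero (∫ w, w.2 ^ 1 * inner ℝ (gr u (xi η w)) v * inner ℝ w.1 a ∂(P n)), ← h2,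
        ← integral_sub hi1 hi2]
      refine integral_congr_ae (Filter.Eventually.of_forall fun w => ?_)
      simp only
      rw [inner_sub_left]
      ring
    have hG := meas_G hGF hR hu η
    have hY : Measurable (fun w : E n × ℝ => (inner ℝ (gr u (xi η w) - η) v : ℝ)) :=
      (hG.sub_const η).inner_const
    have hYb : ∀ w : E n × ℝ, |(inner ℝ (gr u (xi η w) - η) v : ℝ)| ≤ (R + ‖η‖) * ‖v‖ := by
      intro w
      refine (abs_real_inner_le_norm _ _).trans (mul_le_mul_of_nonneg_right ?_ (norm_nonneg _))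
      exact (norm_sub_le _ _).trans (add_le_add (g1 _) le_rfl)
    have hYj : ∀ j : ℕ, j ≤ 4 → Integrable (fun w : E n × ℝ =>
        w.2 ^ j * (inner ℝ (gr u (xi η w) - η) v : ℝ) ^ 2) (P n) := by
      intro j hj
      refine integ hPM ((measurable_snd.pow_const j).mul (hY.pow_const 2)).aestronglyMeasurable
        j 0 hj (((R + ‖η‖) * ‖v‖) ^ 2) fun w => ?_
      rw [Real.norm_eq_abs, abs_mul, abs_pow, abs_pow, pow_zero, mul_one, mul_comm]
      exact mul_le_mul_of_nonneg_right (pow_le_pow_left₀ (abs_nonneg _) (hYb w) 2) (by positivity)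
    have hY2 : Integrable (fun w : E n × ℝ =>
        (1 + w.2 ^ 2) * (inner ℝ (gr u (xi η w) - η) v : ℝ) ^ 2) (P n) := by
      refine ((hYj 0 (by norm_num)).add (hYj 2 (by norm_num))).congr
        (Filter.Eventually.of_forall fun w => ?_)
      simp only [Pi.add_apply]
      ring
    have hg2 : Integrable (fun w : E n × ℝ =>
        (inner ℝ w.1 a : ℝ) * inner ℝ w.1 a * (w.2 ^ 2 / (1 + w.2 ^ 2))) (P n) := by
      refine integ hPM ?_ 2 2 (by norm_num) (‖a‖ ^ 2) fun w => ?_
      · exact (((measurable_fst.inner_const).mul (measurable_fst.inner_const)).mul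
          ((measurable_snd.pow_const 2).div
            ((measurable_snd.pow_const 2).const_add 1))).aestronglyMeasurable
      · have h3 : |(inner ℝ w.1 a : ℝ)| ≤ ‖w.1‖ * ‖a‖ := abs_real_inner_le_norm _ _
        have h4 : |w.2 ^ 2 / (1 + w.2 ^ 2)| ≤ |w.2| ^ 2 := by
          rw [abs_of_nonneg (by positivity), sq_abs]
          exact div_le_self (by positivity) (by nlinarith [sq_nonneg w.2])
        rw [Real.norm_eq_abs, abs_mul, abs_mul]
        calc |(inner ℝ w.1 a : ℝ)| * |(inner ℝ w.1 a : ℝ)| * |w.2 ^ 2 / (1 + w.2 ^ 2)|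
            ≤ (‖w.1‖ * ‖a‖) * (‖w.1‖ * ‖a‖) * |w.2| ^ 2 := by gcongr
          _ = ‖a‖ ^ 2 * (|w.2| ^ 2 * ‖w.1‖ ^ 2) := by ring
    have h4 : ∫ w : E n × ℝ, (inner ℝ w.1 a : ℝ) * inner ℝ w.1 a * (w.2 ^ 2 / (1 + w.2 ^ 2)) ∂(P n) =
        ‖a‖ ^ 2 * (1 / 6) := by
      haveI := hKM.1
      haveI := (hGM n).1
      have e := integral_prod_mul (μ := gam n) (ν := nu)
        (fun x : E n => (inner ℝ x a : ℝ) * inner ℝ x a) (fun κ : ℝ => κ ^ 2 / (1 + κ ^ 2))
      unfold P
      rw [e, (hGM n).2.2.2.1 a a, hKM.2.2.2.2.2, real_inner_self_eq_norm_sq]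
    have h5 : ‖a‖ ^ 2 ≤ ∫ w, (1 / 12 * ((1 + w.2 ^ 2) *
        (inner ℝ (gr u (xi η w) - η) v : ℝ) ^ 2) +
        3 * ((inner ℝ w.1 a : ℝ) * inner ℝ w.1 a * (w.2 ^ 2 / (1 + w.2 ^ 2)))) ∂(P n) := by
      rw [h3]
      have hi3 : Integrable (fun w : E n × ℝ =>
          w.2 * inner ℝ (gr u (xi η w) - η) v * inner ℝ w.1 a) (P n) := by
        refine (hi1.sub hi2).congr (Filter.Eventually.of_forall fun w => ?_)
        simp only [Pi.sub_apply]
        rw [inner_sub_left]
        ring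
      refine integral_mono hi3 ((hY2.const_mul _).add (hg2.const_mul _)) fun w => ?_
      simp only [Pi.add_apply]
      set Y : ℝ := inner ℝ (gr u (xi η w) - η) v
      set Z : ℝ := inner ℝ w.1 a
      have hp : 0 < 1 + w.2 ^ 2 := by positivity
      have e : 1 / 12 * ((1 + w.2 ^ 2) * Y ^ 2) + 3 * (Z * Z * (w.2 ^ 2 / (1 + w.2 ^ 2))) -
          w.2 * Y * Z = (1 / 12) * (((1 + w.2 ^ 2) * Y - 6 * w.2 * Z) ^ 2 / (1 + w.2 ^ 2)) := by
        field_simp
        ring
      have h6 : 0 ≤ (1 / 12) * (((1 + w.2 ^ 2) * Y - 6 * w.2 * Z) ^ 2 / (1 + w.2 ^ 2)) := by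
        positivity
      linarith
    rw [integral_add (hY2.const_mul _) (hg2.const_mul _), integral_const_mul,
      integral_const_mul, h4] at h5
    linarith
  calc ∑ i, ‖AA u η (EuclideanSpace.single i 1)‖ ^ 2
      ≤ ∑ i : Fin n, 1 / 6 * ∫ w, (1 + w.2 ^ 2) *
          (inner ℝ (gr u (xi η w) - η) (EuclideanSpace.single i 1) : ℝ) ^ 2 ∂(P n) :=
        Finset.sum_le_sum fun i _ => key i
    _ ≤ 4 / 3 * SS R u η := by
      have hG := meas_G hGF hR hu η
      rw [← Finset.mul_sum, ← integral_finsetSum]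
      · have h1 : ∫ w, ∑ i : Fin n, (1 + w.2 ^ 2) *
            (inner ℝ (gr u (xi η w) - η) (EuclideanSpace.single i 1) : ℝ) ^ 2 ∂(P n) ≤
            ∫ w, (1 + w.2 ^ 2) * XX R u η w ∂(P n) := by
          refine integral_mono_of_nonneg (Filter.Eventually.of_forall fun w =>
            Finset.sum_nonneg fun i _ => by positivity) x2 (Filter.Eventually.of_forall fun w => ?_)
          have h2 : ∑ i : Fin n, (1 + w.2 ^ 2) *
              (inner ℝ (gr u (xi η w) - η) (EuclideanSpace.single i 1) : ℝ) ^ 2 =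
              (1 + w.2 ^ 2) * ‖gr u (xi η w) - η‖ ^ 2 := by
            rw [← Finset.mul_sum, EuclideanSpace.real_norm_sq_eq]
            congr 1
            refine Finset.sum_congr rfl fun i _ => ?_
            rw [EuclideanSpace.inner_single_right]
            simp
          simp only
          rw [h2]
          exact mul_le_mul_of_nonneg_left (x1 w) (by positivity)
        rw [x5] at h1
        linarith
      · intro i _
        have hm : Measurable (fun w : E n × ℝ =>
            (inner ℝ (gr u (xi η w) - η) (EuclideanSpace.single i 1) : ℝ)) :=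
          (hG.sub_const η).inner_const
        have hb : ∀ w : E n × ℝ,
            |(inner ℝ (gr u (xi η w) - η) (EuclideanSpace.single i 1) : ℝ)| ^ 2 ≤
            (R + ‖η‖) ^ 2 := by
          intro w
          refine pow_le_pow_left₀ (abs_nonneg _) ?_ 2
          refine (abs_real_inner_le_norm _ _).trans ?_
          rw [PiLp.norm_single, norm_one, mul_one]
          exact (norm_sub_le _ _).trans (add_le_add (g1 _) le_rfl)
        have hj : ∀ j : ℕ, j ≤ 4 → Integrable (fun w : E n × ℝ => w.2 ^ j *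
            (inner ℝ (gr u (xi η w) - η) (EuclideanSpace.single i 1) : ℝ) ^ 2) (P n) := by
          intro j hj
          refine integ hPM ((measurable_snd.pow_const j).mul
            (hm.pow_const 2)).aestronglyMeasurable j 0 hj ((R + ‖η‖) ^ 2) fun w => ?_
          rw [Real.norm_eq_abs, abs_mul, abs_pow, abs_pow, pow_zero, mul_one, mul_comm]
          exact mul_le_mul_of_nonneg_right (hb w) (by positivity)
        refine ((hj 0 (by norm_num)).add (hj 2 (by norm_num))).congr
          (Filter.Eventually.of_forall fun w => ?_)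
        simp only [Pi.add_apply]
        ring

end Pool.Agent.L7h70.FX
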