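import Pool.Agent.L7h77.FX.Stm

/-!
# FX-POS: `A ≤ S`
-/

set_option autoImplicit false

open MeasureTheory Filter Topology

namespace Pool.Agent.L7h70.FX

open Pool.Agent.W716.FV

theorem s_POS (h : Pool.Agent.L7h77.FX.S_MONO) (hTD : TDeriv) : Pool.Agent.L7h77.FX.S_POS := by
  intro n R u hR hu η v
  obtain ⟨hT, hS⟩ := hTD n R u hR hu
  -- the derivative of `t ↦ ⟨T(η + t v), v⟩`
  have hline : HasDerivAt (fun t : ℝ => η + t • v) v 0 := by
    have := ((hasDerivAt_id (0 : ℝ)).smul_const v).const_add η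
    simpa using this
  have h1 : HasDerivAt (fun t : ℝ => TT u (η + t • v))
      ((AA u η - ContinuousLinearMap.id ℝ (E n)) v) 0 := by
    have hT0 : HasFDerivAt (TT u) (AA u η - ContinuousLinearMap.id ℝ (E n)) (η + (0 : ℝ) • v) := by
      simpa using hT η
    exact hT0.comp_hasDerivAt 0 hline
  have h2 : Tendsto (fun t : ℝ => t⁻¹ • (TT u (η + t • v) - TT u η)) (𝓝[>] 0)
      (𝓝 ((AA u η - ContinuousLinearMap.id ℝ (E n)) v)) := by
    have h3 := h1.tendsto_slope_zero_right
    simpa using h3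
  have h3 : Tendsto (fun t : ℝ => (inner ℝ (t⁻¹ • (TT u (η + t • v) - TT u η)) v : ℝ)) (𝓝[>] 0)
      (𝓝 (inner ℝ ((AA u η - ContinuousLinearMap.id ℝ (E n)) v) v)) :=
    h2.inner tendsto_const_nhds
  have h4 : Tendsto (fun t : ℝ => ‖v‖ ^ 2 * ((SS R u η + SS R u (η + t • v)) / 2 - 1)) (𝓝[>] 0)
      (𝓝 (‖v‖ ^ 2 * ((SS R u η + SS R u η) / 2 - 1))) := by
    have hc : Continuous (fun t : ℝ => ‖v‖ ^ 2 * ((SS R u η + SS R u (η + t • v)) / 2 - 1)) := by
      have : Continuous (fun t : ℝ => SS R u (η + t • v)) :=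
        hS.comp (continuous_const.add (continuous_id.smul continuous_const))
      fun_prop
    have h5 := (hc.tendsto 0).mono_left (nhdsWithin_le_nhds (s := Set.Ioi (0 : ℝ)))
    simpa using h5
  have h5 : (inner ℝ ((AA u η - ContinuousLinearMap.id ℝ (E n)) v) v : ℝ) ≤
      ‖v‖ ^ 2 * ((SS R u η + SS R u η) / 2 - 1) := by
    refine le_of_tendsto_of_tendsto h3 h4 ?_
    filter_upwards [self_mem_nhdsWithin] with t ht
    have ht : 0 < t := ht
    have h6 := h n R u hR hu η (η + t • v)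
    rw [add_sub_cancel_left, inner_smul_right, norm_smul, mul_pow, Real.norm_eq_abs, sq_abs] at h6
    rw [inner_smul_left]
    simp only [conj_trivial]
    have h7 : t * (inner ℝ (TT u (η + t • v) - TT u η) v : ℝ) ≤
        t * (t * (‖v‖ ^ 2 * ((SS R u η + SS R u (η + t • v)) / 2 - 1))) := by
      calc _ ≤ _ := h6
        _ = _ := by ring
    have h8 := le_of_mul_le_mul_left h7 ht
    rw [inv_mul_le_iff₀ ht]
    exact h8
  rw [sub_apply, ContinuousLinearMap.id_apply, inner_sub_left,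
    real_inner_self_eq_norm_sq] at h5
  linarith

end Pool.Agent.L7h70.FX
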